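import Mathlib

/-!
# A sharply 2-transitive group of degree 64

`F` is a field with 64 elements, `β` a generator of its multiplicative group.  The permutations
`z ↦ β ^ m * z ^ (4 ^ i) + v` with `m ≡ i mod 3` form a sharply 2-transitive group on `F` whose
point stabilisers are not cyclic, of order 63.
-/

set_option autoImplicit false
set_option linter.unusedSectionVars false

namespace Pool.Agent.Q98.Game

open Equiv

section

variable {F : Type} [Field F] [Finite F] [CharP F 2]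

/-- the permutations `z ↦ β ^ m * z ^ (4 ^ i) + v` with `m ≡ i mod 3` -/
def Aff (β : Fˣ) (π : Perm F) : Prop :=
  ∃ (m i : ℕ) (v : F), m ≡ i [MOD 3] ∧ ∀ z, π z = (β : F) ^ m * z ^ (4 ^ i) + v

theorem add_pow4 (x y : F) (i : ℕ) : (x + y) ^ (4 ^ i) = x ^ (4 ^ i) + y ^ (4 ^ i) := by
  have h : (4 : ℕ) ^ i = 2 ^ (2 * i) := by rw [pow_mul]; norm_num
  rw [h]
  exact add_pow_char_pow x y 2 (2 * i)

theorem pow4_mod (i : ℕ) : 4 ^ i ≡ 1 [MOD 3] := by
  have h : 4 ≡ 1 [MOD 3] := rfl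
  simpa using h.pow i

theorem aff_one (β : Fˣ) : Aff β (1 : Perm F) := ⟨0, 0, 0, rfl, fun z => by simp⟩

theorem aff_mul {β : Fˣ} {π ρ : Perm F} (h1 : Aff β π) (h2 : Aff β ρ) : Aff β (π * ρ) := by
  obtain ⟨m, i, v, hm, hπ⟩ := h1
  obtain ⟨n, j, w, hn, hρ⟩ := h2
  refine ⟨m + n * 4 ^ i, i + j, (β : F) ^ m * w ^ (4 ^ i) + v, ?_, fun z => ?_⟩
  · have : n * 4 ^ i ≡ j * 1 [MOD 3] := hn.mul (pow4_mod i)
    rw [mul_one] at this
    exact hm.add this
  · rw [Perm.mul_apply, hρ, hπ, add_pow4, mul_pow, ← pow_mul, ← pow_mul, pow_add, pow_add]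
    rw [mul_comm (4 ^ j) (4 ^ i)]
    ring

theorem aff_pow {β : Fˣ} {π : Perm F} (h : Aff β π) (n : ℕ) : Aff β (π ^ n) := by
  induction n with
  | zero => simpa using aff_one β
  | succ n ih => rw [pow_succ]; exact aff_mul ih h

theorem aff_inv {β : Fˣ} {π : Perm F} (h : Aff β π) : Aff β π⁻¹ := by
  have hfin : Finite (Perm F) := inferInstance
  have h1 : π⁻¹ = π ^ (orderOf π - 1) := by
    have h2 : 0 < orderOf π := orderOf_pos π
    have h3 : π ^ (orderOf π - 1) * π = 1 := by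
      rw [← pow_succ, Nat.sub_add_cancel h2, pow_orderOf_eq_one]
    exact (eq_inv_of_mul_eq_one_left h3).symm
  rw [h1]
  exact aff_pow h _

/-- the group -/
def affGroup (β : Fˣ) : Subgroup (Perm F) where
  carrier := {π | Aff β π}
  mul_mem' := aff_mul
  one_mem' := aff_one β
  inv_mem' := aff_inv

theorem mem_affGroup {β : Fˣ} {π : Perm F} : π ∈ affGroup β ↔ Aff β π := Iff.rfl

/-! ### arithmetic of the exponents -/

theorem exists_pow {β : Fˣ} (hF : Nat.card F = 64) (hβ : orderOf β = 63) {z : F} (hz : z ≠ 0) :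
    ∃ t : ℕ, (β : F) ^ t = z := by
  have hcard : Nat.card Fˣ = 63 := by
    rw [Nat.card_units, hF]
  have h1 : Subgroup.zpowers β = ⊤ := by
    apply Subgroup.eq_top_of_card_eq
    rw [Nat.card_zpowers, hβ, hcard]
  have h2 : Units.mk0 z hz ∈ Subgroup.zpowers β := by rw [h1]; trivial
  rw [← mem_powers_iff_mem_zpowers] at h2
  obtain ⟨t, ht⟩ := h2
  refine ⟨t, ?_⟩
  have := congrArg (fun u : Fˣ => (u : F)) ht
  simpa using this

theorem pow_eq_pow {β : Fˣ} (hβ : orderOf β = 63) {s t : ℕ} :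
    (β : F) ^ s = (β : F) ^ t ↔ s ≡ t [MOD 63] := by
  rw [← hβ, ← pow_eq_pow_iff_modEq, ← Units.val_inj]
  simp

theorem pow64 (hF : Nat.card F = 64) (z : F) (s : ℕ) : z ^ (64 ^ s) = z := by
  have : Fintype F := Fintype.ofFinite F
  have hc : Fintype.card F = 64 := by rw [← Nat.card_eq_fintype_card, hF]
  have := FiniteField.pow_card_pow s z
  rwa [hc] at this

/-- a nontrivial element of the stabiliser of `0` has no other fixed point -/
theorem free {β : Fˣ} (hF : Nat.card F = 64) (hβ : orderOf β = 63) {m i : ℕ}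
    (hm : m ≡ i [MOD 3]) {z : F} (hz : z ≠ 0) (h : (β : F) ^ m * z ^ (4 ^ i) = z) (u : F) :
    (β : F) ^ m * u ^ (4 ^ i) = u := by
  obtain ⟨t, rfl⟩ := exists_pow hF hβ hz
  rw [← pow_mul, ← pow_add, pow_eq_pow hβ] at h
  have h3 : m + t * 4 ^ i ≡ t [MOD 3] := h.of_dvd (by norm_num)
  have h4 : m + t * 4 ^ i ≡ m + t * 1 [MOD 3] := (Nat.ModEq.refl m).add ((Nat.ModEq.refl t).mul
    (pow4_mod i))
  rw [mul_one] at h4
  have h5 : m + t ≡ 0 + t [MOD 3] := by
    rw [zero_add]; exact h4.symm.trans h3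
  have h6 : m ≡ 0 [MOD 3] := Nat.ModEq.add_right_cancel' t h5
  have h7 : 3 ∣ i := (Nat.modEq_zero_iff_dvd).1 (hm.symm.trans h6)
  obtain ⟨s, rfl⟩ := h7
  have h8 : (4 : ℕ) ^ (3 * s) = 64 ^ s := by rw [pow_mul]; norm_num
  rw [h8] at h ⊢
  have h9 : (β : F) ^ (m + t * 64 ^ s) = (β : F) ^ t := (pow_eq_pow hβ).2 h
  rw [pow_add, pow_mul, pow64 hF] at h9
  have hb : (β : F) ^ t ≠ 0 := pow_ne_zero _ β.ne_zero
  have h10 : (β : F) ^ m = 1 := by
    have : (β : F) ^ m * (β : F) ^ t = 1 * (β : F) ^ t := by rw [h9, one_mul]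
    exact mul_right_cancel₀ hb this
  rw [h10, one_mul, pow64 hF]

/-- the stabiliser of `0` is transitive on the other points -/
theorem trans {β : Fˣ} (hF : Nat.card F = 64) (hβ : orderOf β = 63) {u v : F}
    (hu : u ≠ 0) (hv : v ≠ 0) :
    ∃ m i : ℕ, m ≡ i [MOD 3] ∧ (β : F) ^ m * u ^ (4 ^ i) = v := by
  obtain ⟨t, rfl⟩ := exists_pow hF hβ hu
  obtain ⟨s, rfl⟩ := exists_pow hF hβ hv
  -- i ≡ s - t mod 3, m ≡ s - 4 ^ i t mod 63
  refine ⟨s + 62 * (t * 4 ^ (s + 2 * t)), s + 2 * t, ?_, ?_⟩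
  · have h1 : 62 ≡ 2 [MOD 3] := rfl
    have h2 : t * 4 ^ (s + 2 * t) ≡ t * 1 [MOD 3] := (Nat.ModEq.refl t).mul (pow4_mod _)
    rw [mul_one] at h2
    exact (Nat.ModEq.refl s).add (h1.mul h2)
  · rw [← pow_mul, ← pow_add, pow_eq_pow hβ]
    have h1 : s + 62 * (t * 4 ^ (s + 2 * t)) + t * 4 ^ (s + 2 * t)
        = s + 63 * (t * 4 ^ (s + 2 * t)) := by ring
    rw [h1]
    exact (Nat.modEq_zero_iff_dvd.2 (Dvd.intro _ rfl)).add_left s

end

end Pool.Agent.Q98.Game
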