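import Pool.Agent.Q98.Game.Aff

/-!
# The achievement game on the sharply 2-transitive group of degree 64
-/

set_option autoImplicit false
set_option linter.unusedSectionVars false

namespace Pool.Agent.Q98.Game

open Equiv

/-- `⌈P⌉`: the intersection of the maximal subgroups which contain `P` -/
def hull {G : Type} [Group G] (P : Set G) : Subgroup G :=
  sInf {M : Subgroup G | IsCoatom M ∧ P ⊆ (M : Set G)}

/-- the deficiency of `S`: the least size of a set `Q` such that `S ∪ Q` generates `G` -/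
noncomputable def deficiency {G : Type} [Group G] (S : Set G) : ℕ :=
  sInf {n : ℕ | ∃ Q : Finset G, Q.card = n ∧ Subgroup.closure (S ∪ (Q : Set G)) = ⊤}

section hull

variable {G : Type} [Group G] [Finite G]

theorem subset_hull (P : Set G) : P ⊆ (hull P : Set G) := by
  intro x hx
  rw [hull, SetLike.mem_coe, Subgroup.mem_sInf]
  exact fun M hM => hM.2 hx

theorem hull_le {P : Set G} {M : Subgroup G} (hM : IsCoatom M) (h : P ⊆ (M : Set G)) :
    hull P ≤ M := sInf_le ⟨hM, h⟩

theorem exists_coatom {P : Set G} (h : Subgroup.closure P ≠ ⊤) :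
    ∃ M : Subgroup G, IsCoatom M ∧ P ⊆ (M : Set G) := by
  obtain h1 | ⟨M, hM, hle⟩ := eq_top_or_exists_le_coatom (Subgroup.closure P)
  · exact absurd h1 h
  · exact ⟨M, hM, Subgroup.closure_le M |>.1 hle⟩

theorem hull_empty_le {M : Subgroup G} (hM : IsCoatom M) : hull (∅ : Set G) ≤ M :=
  hull_le hM (Set.empty_subset _)

end hull

section

variable {F : Type} [Field F] [Finite F] [CharP F 2]

variable {β : Fˣ}

/-- elements of the group with a fixed point different from a given fixed point are trivial -/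
theorem eq_one_of_fix (hF : Nat.card F = 64) (hβ : orderOf β = 63) {π : Perm F} (h : Aff β π)
    {w z : F} (hw : π w = w) (hz : π z = z) (hne : z ≠ w) : π = 1 := by
  obtain ⟨m, i, v, hm, hπ⟩ := h
  have key : ∀ u, π (w + u) = w + (β : F) ^ m * u ^ (4 ^ i) := by
    intro u
    have h1 := hπ w
    rw [hπ, add_pow4, mul_add]
    rw [hw] at h1
    rw [add_right_comm, ← h1]
  have h2 : (β : F) ^ m * (z - w) ^ (4 ^ i) = z - w := by
    have := key (z - w)
    rw [add_sub_cancel, hz] at this
    rw [eq_sub_iff_add_eq, add_comm]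
    exact this.symm
  have h3 := free hF hβ hm (sub_ne_zero.2 hne) h2
  ext u
  have := key (u - w)
  rw [add_sub_cancel, h3, add_sub_cancel] at this
  simpa using this

/-- translations belong to the group -/
theorem aff_translation (v : F) : Aff β (Equiv.addRight v) :=
  ⟨0, 0, v, rfl, fun z => by simp⟩

theorem exists_two (hF : Nat.card F = 64) (hβ : orderOf β = 63) {w z y : F} (hz : z ≠ w)
    (hy : y ≠ w) : ∃ π : Perm F, Aff β π ∧ π w = w ∧ π z = y := by
  obtain ⟨m, i, hm, h⟩ := trans hF hβ (sub_ne_zero.2 hz) (sub_ne_zero.2 hy)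
  have hinj : Function.Injective fun u : F => (β : F) ^ m * u ^ (4 ^ i) +
      (w - (β : F) ^ m * w ^ (4 ^ i)) := by
    intro a b hab
    have h1 : (β : F) ^ m * a ^ (4 ^ i) = (β : F) ^ m * b ^ (4 ^ i) := add_right_cancel hab
    have h2 : a ^ (4 ^ i) = b ^ (4 ^ i) := mul_left_cancel₀ (pow_ne_zero _ β.ne_zero) h1
    have h3 : (a + b) ^ (4 ^ i) = 0 := by
      rw [add_pow4, h2]
      exact CharTwo.add_self_eq_zero _
    have h4 : a + b = 0 := pow_eq_zero_iff (by positivity) |>.1 h3
    exact CharTwo.add_eq_zero.1 h4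
  let π : Perm F := Equiv.ofBijective _ (Finite.injective_iff_bijective.1 hinj)
  have hπ : ∀ u, π u = (β : F) ^ m * u ^ (4 ^ i) + (w - (β : F) ^ m * w ^ (4 ^ i)) := fun u => rfl
  refine ⟨π, ⟨m, i, _, hm, hπ⟩, ?_, ?_⟩
  · rw [hπ]; ring
  · rw [hπ]
    have h5 : (z - w + w) ^ (4 ^ i) = (z - w) ^ (4 ^ i) + w ^ (4 ^ i) := add_pow4 _ _ _
    rw [sub_add_cancel] at h5
    rw [h5, mul_add, h]
    ring

/-- the stabiliser of `w` in the group -/
def stab (β : Fˣ) (w : F) : Subgroup (affGroup β) where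
  carrier := {π | π.1 w = w}
  mul_mem' := by
    intro a b ha hb
    simp only [Set.mem_setOf_eq, Subgroup.coe_mul, Perm.mul_apply] at *
    rw [hb, ha]
  one_mem' := by simp
  inv_mem' := by
    intro a ha
    simp only [Set.mem_setOf_eq, Subgroup.coe_inv] at *
    rw [Perm.inv_eq_iff_eq, ha]

theorem mem_stab {w : F} {π : affGroup β} : π ∈ stab β w ↔ π.1 w = w := Iff.rfl

theorem card_stab (hF : Nat.card F = 64) (hβ : orderOf β = 63) (w : F) :
    Nat.card (stab β w) = 63 := by
  have hcard : Nat.card {z : F // z ≠ w} = 63 := by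
    have : Fintype F := Fintype.ofFinite F
    classical
    rw [Nat.card_eq_fintype_card, Fintype.card_subtype_compl, Fintype.card_subtype_eq,
      ← Nat.card_eq_fintype_card, hF]
  rw [← hcard]
  have hne : w + 1 ≠ w := by simp
  refine Nat.card_congr (Equiv.ofBijective
    (fun π : stab β w => (⟨π.1.1 (w + 1), fun h => hne (π.1.1.injective (h.trans
      (mem_stab.1 π.2).symm))⟩ : {z : F // z ≠ w})) ⟨?_, ?_⟩)
  · intro π ρ h
    have h1 : π.1.1 (w + 1) = ρ.1.1 (w + 1) := congrArg Subtype.val h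
    have h2 : ρ.1.1⁻¹ * π.1.1 = 1 := by
      refine eq_one_of_fix hF hβ (aff_mul (aff_inv ρ.1.2) π.1.2) (w := w) (z := w + 1) ?_ ?_ hne
      · rw [Perm.mul_apply, mem_stab.1 π.2, Perm.inv_eq_iff_eq, mem_stab.1 ρ.2]
      · rw [Perm.mul_apply, h1, Perm.inv_eq_iff_eq]
    have h3 : π.1.1 = ρ.1.1 := by
      rw [inv_mul_eq_one] at h2
      exact h2.symm
    exact Subtype.ext (Subtype.ext h3)
  · intro ⟨y, hy⟩
    obtain ⟨π, hπ, h1, h2⟩ := exists_two hF hβ hne hy
    exact ⟨⟨⟨π, hπ⟩, h1⟩, Subtype.ext h2⟩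

theorem stab_ne_top (w : F) : stab β w ≠ ⊤ := by
  intro h
  have h1 : (⟨Equiv.addRight 1, aff_translation 1⟩ : affGroup β) ∈ stab β w := by
    rw [h]; trivial
  rw [mem_stab] at h1
  simp at h1

theorem isCoatom_stab (hF : Nat.card F = 64) (hβ : orderOf β = 63) (w : F) :
    IsCoatom (stab β w) := by
  refine ⟨stab_ne_top w, fun H hH => ?_⟩
  obtain ⟨hle, hnot⟩ := SetLike.lt_iff_le_and_exists.1 hH
  obtain ⟨h, hhH, hhw⟩ := hnot
  rw [eq_top_iff]
  intro x _
  by_cases hx : x.1 w = w
  · exact hle hx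
  · have hz : h.1 w ≠ w := hhw
    obtain ⟨s, hs, h1, h2⟩ := exists_two (β := β) hF hβ hz hx
    have hsH : (⟨s, hs⟩ : affGroup β) ∈ H := hle h1
    have h3 : (⟨s, hs⟩ * h)⁻¹ * x ∈ H := by
      apply hle
      rw [mem_stab]
      simp only [Subgroup.coe_mul, Subgroup.coe_inv, Perm.mul_apply]
      rw [Perm.inv_eq_iff_eq, Perm.mul_apply, h2]
    have h4 : (⟨s, hs⟩ * h) * ((⟨s, hs⟩ * h)⁻¹ * x) ∈ H := H.mul_mem (H.mul_mem hsH hhH) h3
    rwa [mul_inv_cancel_left] at h4

theorem affine {π : Perm F} (h : Aff β π) (x y : F) : π (x + y) + π 0 = π x + π y := by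
  obtain ⟨m, i, v, hm, hπ⟩ := h
  rw [hπ, hπ, hπ, hπ, add_pow4, zero_pow (by positivity)]
  ring

theorem aff_lin {π : Perm F} (h : Aff β π) : Aff β (Equiv.addRight (-(π 0)) * π) :=
  aff_mul (aff_translation _) h

/-- the linear part -/
def lin (β : Fˣ) : affGroup β →* affGroup β where
  toFun π := ⟨Equiv.addRight (-(π.1 0)) * π.1, aff_lin π.2⟩
  map_one' := by
    apply Subtype.ext
    ext z
    simp
  map_mul' := by
    intro a b
    apply Subtype.ext
    ext z
    simp only [Subgroup.coe_mul, Perm.mul_apply, Equiv.coe_addRight, ← sub_eq_add_neg]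
    have h := affine a.2 (b.1 z - b.1 0) (b.1 0)
    rw [sub_add_cancel] at h
    rw [sub_eq_sub_iff_add_eq_add, h]

theorem lin_apply (π : affGroup β) (z : F) : (lin β π).1 z = π.1 z - π.1 0 :=
  (sub_eq_add_neg _ _).symm

theorem lin_zero (π : affGroup β) : (lin β π).1 0 = 0 := by rw [lin_apply, sub_self]

theorem lin_of_zero {π : affGroup β} (h : π.1 0 = 0) : lin β π = π := by
  apply Subtype.ext
  ext z
  rw [lin_apply, h, sub_zero]

/-- translations -/
def tr (β : Fˣ) (v : F) : affGroup β := ⟨Equiv.addRight v, aff_translation v⟩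

theorem tr_apply (v z : F) : (tr β v).1 z = z + v := rfl

theorem eq_tr {π : affGroup β} (h : lin β π = 1) : π = tr β (π.1 0) := by
  apply Subtype.ext
  ext z
  have h1 : (lin β π).1 z = z := by rw [h]; rfl
  rw [lin_apply, sub_eq_iff_eq_add] at h1
  rw [tr_apply, h1]

theorem lin_tr (v : F) : lin β (tr β v) = 1 := by
  apply Subtype.ext
  ext z
  rw [lin_apply, tr_apply, tr_apply]
  simp

theorem conj_tr (h : affGroup β) (v : F) : h * tr β v * h⁻¹ = tr β ((lin β h).1 v) := by
  rw [mul_inv_eq_iff_eq_mul]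
  apply Subtype.ext
  ext z
  simp only [Subgroup.coe_mul, Perm.mul_apply]
  rw [tr_apply, tr_apply, lin_apply]
  have := affine h.2 z v
  rw [← add_sub_assoc, ← this]
  ring

/-- `a : z ↦ β ^ 3 z` -/
def genA (β : Fˣ) : affGroup β :=
  ⟨(Units.mulLeft (β ^ 3) : Perm F), ⟨3, 0, 0, rfl, fun z => by simp⟩⟩

theorem genA_apply (z : F) : (genA β).1 z = (β : F) ^ 3 * z := by
  simp [genA]

theorem exists_genC (hF : Nat.card F = 64) (hβ : orderOf β = 63) :
    ∃ c : affGroup β, ∀ z, c.1 z = (β : F) * z ^ 4 := by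
  have hinj : Function.Injective fun u : F => (β : F) * u ^ 4 := by
    intro a b hab
    have h2 : a ^ 4 = b ^ 4 := mul_left_cancel₀ β.ne_zero hab
    have h3 : (a + b) ^ (4 ^ 1) = 0 := by
      rw [add_pow4, pow_one, h2]
      exact CharTwo.add_self_eq_zero _
    have h4 : a + b = 0 := pow_eq_zero_iff (by positivity) |>.1 h3
    exact CharTwo.add_eq_zero.1 h4
  exact ⟨⟨Equiv.ofBijective _ (Finite.injective_iff_bijective.1 hinj),
    ⟨1, 1, 0, rfl, fun z => by simp⟩⟩, fun z => rfl⟩

theorem not_comm (hβ : orderOf β = 63) {c : affGroup β} (hc : ∀ z, c.1 z = (β : F) * z ^ 4) :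
    genA β * c ≠ c * genA β := by
  intro h
  have h1 := congrArg (fun π : affGroup β => π.1 1) h
  simp only [Subgroup.coe_mul, Perm.mul_apply, hc, genA_apply] at h1
  have h2 : (β : F) ^ 4 = (β : F) ^ 13 := by
    rw [show (β : F) ^ 4 = (β : F) ^ 3 * ((β : F) * 1 ^ 4) by ring, h1]; ring
  rw [pow_eq_pow hβ] at h2
  exact absurd h2 (by decide)

/-- the first element of a generating pair has a fixed point -/
theorem exists_fixed (hF : Nat.card F = 64) (hβ : orderOf β = 63) {g h : affGroup β}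
    (hgh : Subgroup.closure {g, h} = ⊤) : ∃ w, g.1 w = w := by
  by_contra hno
  push Not at hno
  have hlin : lin β g = 1 := by
    obtain ⟨m, i, v, hm, hg⟩ := g.2
    by_cases hex : ∃ z : F, z ≠ 0 ∧ (β : F) ^ m * z ^ (4 ^ i) = z
    · obtain ⟨z, hz, hfix⟩ := hex
      apply Subtype.ext
      ext u
      rw [lin_apply, hg, hg, zero_pow (by positivity), free hF hβ hm hz hfix]
      simp
    · exfalso
      push Not at hex
      have hinj : Function.Injective fun z : F => z - (β : F) ^ m * z ^ (4 ^ i) := by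
        intro x y hxy
        by_contra hne
        refine hex (x - y) (sub_ne_zero.2 hne) ?_
        have h1 : (x - y + y) ^ (4 ^ i) = (x - y) ^ (4 ^ i) + y ^ (4 ^ i) := add_pow4 _ _ _
        rw [sub_add_cancel] at h1
        have h2 : x - (β : F) ^ m * x ^ (4 ^ i) = y - (β : F) ^ m * y ^ (4 ^ i) := hxy
        rw [h1] at h2
        linear_combination -h2
      obtain ⟨z, hz⟩ := (Finite.injective_iff_surjective.1 hinj) v
      have hz' : z - (β : F) ^ m * z ^ (4 ^ i) = v := hz
      exact hno z (by rw [hg]; linear_combination -hz')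
  obtain ⟨c, hc⟩ := exists_genC (β := β) hF hβ
  have hrange : ∀ x : affGroup β, x.1 0 = 0 → x ∈ Subgroup.zpowers (lin β h) := by
    intro x hx
    have h1 : x ∈ (Subgroup.closure {g, h}).map (lin β) := by
      rw [hgh]
      exact ⟨x, trivial, lin_of_zero hx⟩
    rw [MonoidHom.map_closure, Set.image_pair, hlin] at h1
    refine (Subgroup.closure_le _ |>.2 ?_) h1
    rintro y (rfl | rfl)
    · exact one_mem _
    · exact Subgroup.mem_zpowers _
  have ha := hrange (genA β) (by rw [genA_apply, mul_zero])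
  have hc' := hrange c (by rw [hc]; simp)
  obtain ⟨s, hs⟩ := ha
  obtain ⟨t, ht⟩ := hc'
  apply not_comm hβ hc
  rw [← hs, ← ht]
  exact (zpow_mul_comm _ s t)

theorem genC_pow {c : affGroup β} (hc : ∀ z, c.1 z = (β : F) * z ^ 4) (i : ℕ) :
    ∃ e : ℕ, e ≡ i [MOD 3] ∧ ∀ z, (c ^ i).1 z = (β : F) ^ e * z ^ (4 ^ i) := by
  induction i with
  | zero => exact ⟨0, rfl, fun z => by simp⟩
  | succ i ih =>
    obtain ⟨e, he, h⟩ := ih
    refine ⟨1 + 4 * e, ?_, fun z => ?_⟩
    · have h1 : 4 * e ≡ 1 * i [MOD 3] := Nat.ModEq.mul rfl he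
      rw [one_mul] at h1
      have := (Nat.ModEq.refl 1).add h1
      rwa [add_comm 1 i] at this
    · rw [pow_succ', Subgroup.coe_mul, Perm.mul_apply, h, hc, mul_pow, ← pow_mul, ← pow_mul,
        pow_succ 4 i]
      ring

theorem genA_pow (t : ℕ) (z : F) : ((genA β) ^ t).1 z = (β : F) ^ (3 * t) * z := by
  induction t generalizing z with
  | zero => simp
  | succ t ih =>
    rw [pow_succ, Subgroup.coe_mul, Perm.mul_apply, ih, genA_apply]
    ring

theorem mem_closure_of_zero (hβ : orderOf β = 63) {c : affGroup β}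
    (hc : ∀ z, c.1 z = (β : F) * z ^ 4) {k : affGroup β} (hk : k.1 0 = 0) :
    k ∈ Subgroup.closure {genA β, c} := by
  obtain ⟨m, i, v, hm, h⟩ := k.2
  have hv : v = 0 := by
    have := h 0
    rw [hk, zero_pow (by positivity), mul_zero, zero_add] at this
    exact this.symm
  obtain ⟨e, he, hce⟩ := genC_pow hc i
  have h3 : 3 ∣ m + 62 * e := by
    rw [← Nat.modEq_zero_iff_dvd]
    have h1 : 62 * e ≡ 2 * i [MOD 3] := Nat.ModEq.mul rfl he
    have h2 : m + 62 * e ≡ i + 2 * i [MOD 3] := hm.add h1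
    refine h2.trans ?_
    rw [Nat.modEq_zero_iff_dvd]
    exact ⟨i, by ring⟩
  obtain ⟨t, ht⟩ := h3
  have : k = (genA β) ^ t * c ^ i := by
    apply Subtype.ext
    ext z
    rw [h, hv, add_zero, Subgroup.coe_mul, Perm.mul_apply, hce, genA_pow, ← mul_assoc, ← pow_add,
      ← ht]
    congr 1
    rw [pow_eq_pow hβ]
    have h5 : m + 62 * e + e = m + 63 * e := by ring
    rw [h5]
    exact ((Nat.modEq_zero_iff_dvd.2 (Dvd.intro _ rfl)).add_left m).symm
  rw [this]
  exact mul_mem (pow_mem (Subgroup.subset_closure (by simp)) _)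
    (pow_mem (Subgroup.subset_closure (by simp)) _)

/-- the group is generated by two elements -/
theorem exists_pair (hF : Nat.card F = 64) (hβ : orderOf β = 63) :
    ∃ g h : affGroup β, Subgroup.closure {g, h} = ⊤ := by
  obtain ⟨c, hc⟩ := exists_genC (β := β) hF hβ
  have hc0 : c.1 0 = 0 := by rw [hc]; simp
  have ha0 : (genA β).1 0 = 0 := by rw [genA_apply, mul_zero]
  set c' := tr β 1 * c * (tr β 1)⁻¹ with hc'
  refine ⟨genA β, c', ?_⟩
  set H := Subgroup.closure {genA β, c'} with hH
  have haH : genA β ∈ H := Subgroup.subset_closure (by simp)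
  have hcH : c' ∈ H := Subgroup.subset_closure (by simp)
  have hlinA : lin β (genA β) = genA β := lin_of_zero ha0
  have hlinC : lin β c' = c := by
    rw [hc', map_mul, map_mul, map_inv, lin_tr, lin_of_zero hc0]
    simp
  have hlift : ∀ k : affGroup β, k.1 0 = 0 → ∃ h ∈ H, lin β h = k := by
    intro k hk
    have h1 := mem_closure_of_zero hβ hc hk
    have h2 : Subgroup.closure {genA β, c} = H.map (lin β) := by
      rw [hH, MonoidHom.map_closure, Set.image_pair, hlinA, hlinC]
    rw [h2] at h1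
    obtain ⟨h, hh, rfl⟩ := h1
    exact ⟨h, hh, rfl⟩
  have hrel : c * genA β * c⁻¹ = (genA β) ^ 4 := by
    rw [mul_inv_eq_iff_eq_mul]
    apply Subtype.ext
    ext z
    simp only [Subgroup.coe_mul, Perm.mul_apply]
    rw [genA_pow, hc, hc, genA_apply]
    ring
  set e := c' * genA β * c'⁻¹ * ((genA β) ^ 4)⁻¹ with he
  have heH : e ∈ H := mul_mem (mul_mem (mul_mem hcH haH) (inv_mem hcH)) (inv_mem (pow_mem haH _))
  have hline : lin β e = 1 := by
    rw [he, map_mul, map_mul, map_mul, map_inv, map_inv, map_pow, hlinA, hlinC, hrel, mul_inv_cancel]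
  have he0 : e.1 0 ≠ 0 := by
    intro h0
    have h1 : ((genA β) ^ 4)⁻¹.1 0 = 0 := by
      rw [Subgroup.coe_inv, Perm.inv_eq_iff_eq, genA_pow, mul_zero]
    have h2 : c'.1 ((genA β).1 (c'⁻¹.1 0)) = 0 := by
      have := h0
      rw [he, Subgroup.coe_mul, Perm.mul_apply, h1] at this
      simpa only [Subgroup.coe_mul, Perm.mul_apply] using this
    have h3 : (genA β).1 (c'⁻¹.1 0) = c'⁻¹.1 0 := by
      rw [Subgroup.coe_inv] at h2 ⊢
      exact Perm.eq_inv_iff_eq.2 h2
    have h4 : c'⁻¹.1 0 = 0 := by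
      by_contra hne
      have h5 : (genA β).1 = 1 := eq_one_of_fix hF hβ (genA β).2 ha0 h3 hne
      have h6 : (genA β).1 1 = 1 := by rw [h5]; rfl
      rw [genA_apply, mul_one] at h6
      have h7 : (β : F) ^ 3 = (β : F) ^ 0 := by rw [h6, pow_zero]
      rw [pow_eq_pow hβ] at h7
      exact absurd h7 (by decide)
    have h5 : c'.1 0 = 0 := by
      rw [Subgroup.coe_inv, Perm.inv_eq_iff_eq] at h4
      exact h4.symm
    have h6 : (tr β 1)⁻¹.1 0 = 1 := by
      rw [Subgroup.coe_inv, Perm.inv_eq_iff_eq, tr_apply]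
      exact (CharTwo.add_self_eq_zero _).symm
    rw [hc'] at h5
    simp only [Subgroup.coe_mul, Perm.mul_apply] at h5
    rw [h6, hc, tr_apply, one_pow, mul_one] at h5
    have h7 : (β : F) ^ 1 = (β : F) ^ 0 := by
      rw [pow_one, pow_zero]
      exact CharTwo.add_eq_zero.1 h5
    rw [pow_eq_pow hβ] at h7
    exact absurd h7 (by decide)
  have htr : ∀ u : F, tr β u ∈ H := by
    intro u
    by_cases hu : u = 0
    · have : tr β u = 1 := by
        apply Subtype.ext
        ext z
        rw [tr_apply, hu, add_zero]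
        rfl
      rw [this]
      exact one_mem _
    · obtain ⟨k, hk, hk0, hku⟩ := exists_two (β := β) hF hβ he0 hu
      obtain ⟨h, hh, hlin⟩ := hlift ⟨k, hk⟩ hk0
      have h1 : h * e * h⁻¹ ∈ H := mul_mem (mul_mem hh heH) (inv_mem hh)
      rw [eq_tr hline, conj_tr, hlin] at h1
      rwa [show (⟨k, hk⟩ : affGroup β).1 (e.1 0) = u from hku] at h1
  rw [eq_top_iff]
  intro x _
  obtain ⟨h, hh, hlin⟩ := hlift (lin β x) (lin_zero x)
  have h1 : lin β (x * h⁻¹) = 1 := by rw [map_mul, map_inv, hlin, mul_inv_cancel]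
  have h2 : x * h⁻¹ ∈ H := by rw [eq_tr h1]; exact htr _
  have h3 := mul_mem h2 hh
  rwa [inv_mul_cancel_right] at h3

theorem even_card : Even (Nat.card (affGroup β)) := by
  have h1 : orderOf (tr β 1) = 2 := by
    rw [orderOf_eq_prime_iff]
    constructor
    · apply Subtype.ext
      ext z
      rw [pow_two, Subgroup.coe_mul, Perm.mul_apply, tr_apply, tr_apply, add_assoc,
        CharTwo.add_self_eq_zero, add_zero]
      rfl
    · intro h
      have : (tr β 1).1 0 = (0 : F) := by rw [h]; rfl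
      rw [tr_apply, zero_add] at this
      exact one_ne_zero this
  rw [even_iff_two_dvd, ← h1]
  exact orderOf_dvd_natCard _

theorem odd_of_le (hF : Nat.card F = 64) (hβ : orderOf β = 63) {w : F} {L : Subgroup (affGroup β)}
    (h : L ≤ stab β w) : Odd (Nat.card L) := by
  have h1 : Nat.card L ∣ 63 := by
    rw [← card_stab hF hβ w]
    exact Subgroup.card_dvd_of_le h
  exact Odd.of_dvd_nat (by decide) h1

theorem hull_empty_subset {P : Set (affGroup β)} (h : hull P = hull ∅) {M : Subgroup (affGroup β)}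
    (hM : IsCoatom M) : P ⊆ (M : Set (affGroup β)) := fun _ hx =>
  hull_empty_le hM (h ▸ subset_hull P hx)

theorem closure_of_hull {Q : Set (affGroup β)}
    (h : Subgroup.closure ((hull (∅ : Set (affGroup β)) : Set (affGroup β)) ∪ Q) = ⊤) :
    Subgroup.closure Q = ⊤ := by
  by_contra hne
  obtain ⟨M, hM, hQ⟩ := exists_coatom hne
  refine hM.1 (eq_top_iff.2 ?_)
  rw [← h]
  exact (Subgroup.closure_le M).2 (Set.union_subset (hull_empty_le hM) hQ)

theorem deficiency_hull (hF : Nat.card F = 64) (hβ : orderOf β = 63) :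
    deficiency ((hull (∅ : Set (affGroup β)) : Subgroup (affGroup β)) : Set (affGroup β)) = 2 := by
  classical
  obtain ⟨c, hc⟩ := exists_genC (β := β) hF hβ
  have hcomm : ¬ ∀ x y : affGroup β, x * y = y * x := fun h => not_comm hβ hc (h _ _)
  apply le_antisymm
  · obtain ⟨g, h, hgh⟩ := exists_pair (β := β) hF hβ
    have hne : g ≠ h := by
      rintro rfl
      apply hcomm
      intro x y
      rw [Set.pair_eq_singleton, ← Subgroup.zpowers_eq_closure] at hgh
      have hx : x ∈ Subgroup.zpowers g := by rw [hgh]; trivial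
      have hy : y ∈ Subgroup.zpowers g := by rw [hgh]; trivial
      obtain ⟨s, rfl⟩ := hx
      obtain ⟨t, rfl⟩ := hy
      exact zpow_mul_comm _ s t
    apply Nat.sInf_le
    refine ⟨{g, h}, Finset.card_pair hne, ?_⟩
    rw [eq_top_iff, ← hgh]
    apply Subgroup.closure_mono
    rw [Finset.coe_pair]
    exact Set.subset_union_right
  · apply le_csInf
    · obtain ⟨g, h, hgh⟩ := exists_pair (β := β) hF hβ
      refine ⟨_, {g, h}, rfl, ?_⟩
      rw [eq_top_iff, ← hgh]
      apply Subgroup.closure_mono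
      rw [Finset.coe_pair]
      exact Set.subset_union_right
    · rintro n ⟨Q, rfl, hQ⟩
      by_contra hlt
      have hle : Q.card ≤ 1 := by omega
      have h1 := closure_of_hull hQ
      obtain ⟨g, hg⟩ := Finset.card_le_one_iff_subset_singleton.1 hle
      apply hcomm
      intro x y
      have h2 : Subgroup.zpowers g = ⊤ := by
        rw [eq_top_iff, ← h1, Subgroup.zpowers_eq_closure]
        apply Subgroup.closure_mono
        intro z hz
        have := hg hz
        simpa using this
      have hx : x ∈ Subgroup.zpowers g := by rw [h2]; trivial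
      have hy : y ∈ Subgroup.zpowers g := by rw [h2]; trivial
      obtain ⟨s, rfl⟩ := hx
      obtain ⟨t, rfl⟩ := hy
      exact zpow_mul_comm _ s t

/-- no even class which is an option of the class of the empty position has deficiency `1` -/
theorem no_option (hF : Nat.card F = 64) (hβ : orderOf β = 63) {P : Set (affGroup β)}
    (hP : hull P = hull ∅) {g : affGroup β}
    (heven : Even (Nat.card (hull (insert g P) : Subgroup (affGroup β)))) :
    deficiency ((hull (insert g P) : Subgroup (affGroup β)) : Set (affGroup β)) ≠ 1 := by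
  intro hd
  have hne : {n : ℕ | ∃ Q : Finset (affGroup β), Q.card = n ∧
      Subgroup.closure (((hull (insert g P) : Subgroup (affGroup β)) : Set (affGroup β)) ∪
        (Q : Set (affGroup β))) = ⊤}.Nonempty := by
    by_contra hemp
    rw [Set.not_nonempty_iff_eq_empty] at hemp
    rw [deficiency, hemp, Nat.sInf_empty] at hd
    exact absurd hd (by norm_num)
  have hmem := Nat.sInf_mem hne
  rw [deficiency] at hd
  rw [hd] at hmem
  obtain ⟨Q, hQ, hcl⟩ := hmem
  obtain ⟨h, rfl⟩ := Finset.card_eq_one.1 hQ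
  have hgh : Subgroup.closure {g, h} = (⊤ : Subgroup (affGroup β)) := by
    by_contra hno
    obtain ⟨M, hM, hsub⟩ := exists_coatom hno
    refine hM.1 (eq_top_iff.2 ?_)
    rw [← hcl]
    refine (Subgroup.closure_le M).2 (Set.union_subset ?_ ?_)
    · exact hull_le hM (Set.insert_subset (hsub (by simp)) (hull_empty_subset hP hM))
    · rw [Finset.coe_singleton, Set.singleton_subset_iff]
      exact hsub (by simp)
  obtain ⟨w, hw⟩ := exists_fixed hF hβ hgh
  have hodd : Odd (Nat.card (hull (insert g P) : Subgroup (affGroup β))) :=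
    odd_of_le hF hβ (hull_le (isCoatom_stab hF hβ w)
      (Set.insert_subset (mem_stab.2 hw) (hull_empty_subset hP (isCoatom_stab hF hβ w))))
  exact (Nat.not_even_iff_odd.2 hodd) heven

end

end Pool.Agent.Q98.Game
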